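import Pool.Agent.W_448s8f_h76.FiQ

/-!
Case B, `m = 8`: no element (C) (MP_448cb3_co, input HCC at `m = 8`).
-/

namespace Pool.Agent.GaussPoset.Fi

set_option linter.unusedSectionVars false

open Polynomial Finset

universe u

variable {P : Type u} [Fintype P] [PartialOrder P] [DecidableEq P] {r i m j K : ℕ}

/-- the maximal element above an element of level at most `j` -/
lemma topOf_of_le (G : Win.GoodTo P r j) {x : P} {t : Tops P} (hx : x ≤ (t : P))
    (hl : lev x ≤ j) : topOf x = t :=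
  Subtype.ext (mem_onlyB.mp (only_of_le G.H G.good (le_topOf x) hl) t t.2 hx).symm

/-- the element over the fold end and the straight end of a stair -/
theorem cc_of_stair (G : Win.GoodTo P r (2 * m)) (hm : 2 ≤ m) {t : Tops P} {lo hi : ℕ → ℕ}
    {e : ℕ → ℕ → P} (C : Cp.Comp (2 * m) (t : P) lo hi e) (S : StairShape (2 * m) lo hi)
    (h0 : lo (2 * m) = 0) {z : P} (hz1 : z ⋖ e (2 * m) m) (hz2 : z ⋖ e (2 * m) 0) :
    CC m z := by
  have e1 := S.hi (2 * m) le_rfl
  have e2 := C.lev_e (2 * m) m le_rfl (by omega) (by omega)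
  have e3 := C.lev_e (2 * m) 0 le_rfl (by omega) (by omega)
  have t2 := C.le_t (2 * m) m le_rfl (by omega) (by omega)
  have t3 := C.le_t (2 * m) 0 le_rfl (by omega) (by omega)
  have hF : e (2 * m) m ∈ lowPart (2 * m) (t : P) := mem_lowPart.mpr ⟨t2, e2.le⟩
  have hS' : e (2 * m) 0 ∈ lowPart (2 * m) (t : P) := mem_lowPart.mpr ⟨t3, e3.le⟩
  have Ch := chart_stair C G.H G.good S
  have c2 : ccoord lo hi e (e (2 * m) m) = (m, m) := by
    unfold ccoord
    rw [scoord_e C (k := 2 * m) (s := m) le_rfl (by omega) (by omega), e2]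
    exact Prod.ext rfl (by simp only; omega)
  have c3 : ccoord lo hi e (e (2 * m) 0) = (0, 2 * m) := by
    unfold ccoord
    rw [scoord_e C (k := 2 * m) (s := 0) le_rfl (by omega) (by omega), e3]
    exact Prod.ext rfl (by simp only; omega)
  have hne : e (2 * m) m ≠ e (2 * m) 0 := by
    intro h
    rw [h, c3, Prod.mk.injEq] at c2
    omega
  have hlz : lev z = 2 * m + 1 := by
    have := (G.H.covBy_iff.mp hz1).2
    omega
  refine ⟨hlz, e (2 * m) m, e (2 * m) 0, ⟨e2, ?_, ?_⟩, ?_, ?_, hne, hz1, hz2⟩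
  · rw [Wd.uc_card_nab G.H (by omega), nab_chart Ch hF, c2, e2]
    have := card_cellsAt_shift (l := 2 * m - 1) (p := (m, m)) le_rfl (by simp only; omega)
    simp only at this
    omega
  · rw [nab_chart Ch hF, c2]
    have := card_cellsAt_shift (l := 2) (p := (m, m)) le_rfl (by simp only; omega)
    simp only at this
    omega
  · rw [Wd.uc_card_nab G.H (by omega), nab_chart Ch hS', c3, e3]
    have := card_cellsAt_shift (l := 2 * m - 1) (p := (0, 2 * m)) (Nat.zero_le _)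
      (by simp only; omega)
    simp only at this
    omega
  · rw [topOf_of_le G t2 e2.le, topOf_of_le G t3 e3.le]

/-- no joins: the seventh step -/
lemma s7F_of_nj (_G : Win.GoodTo P r (2 * m)) (hnj : ∀ z : P, lev z = 2 * m + 1 → ¬ Hul.Jn z) :
    S7F P m := by
  intro z x x' hl hzx hzx' hne
  exact (hnj z hl ⟨topOf x, topOf x', (topOf x).2, (topOf x').2, fun h => hne (Subtype.ext h),
    hzx.1.le.trans (le_topOf x), hzx'.1.le.trans (le_topOf x')⟩).elim

/-- **(C), `m = 8`.** -/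
theorem no_cc_eight (h : Win.GoodTo P r (2 * 8)) (hr : 2 * 8 + 1 ≤ r)
    {lo hi : Tops P → ℕ → ℕ} {e : Tops P → ℕ → ℕ → P}
    (C : ∀ t : Tops P, Cp.Comp (2 * 8) (t : P) (lo t) (hi t) (e t))
    (hS : ∀ t, Wd.Shape (2 * 8) (lo t) (hi t))
    (hnj : ∀ z : P, lev z = 2 * 8 + 1 → ¬ Hul.Jn z) {t : Tops P} {z : P}
    (S : StairShape (2 * 8) (lo t) (hi t)) (h0 : lo t (2 * 8) = 0)
    (hz1 : z ⋖ e t (2 * 8) 8) (hz2 : z ⋖ e t (2 * 8) 0) : False := by
  obtain ⟨N, θ, W⟩ := Fi.exists_WC (K := 43) (Or.inl ⟨rfl, rfl⟩) h hr C hS kapR88 kapS88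
    (by norm_num)
  have hc := cc_of_stair h (by norm_num) (C t) S h0 hz1 hz2
  obtain ⟨hl, x, x', hx, h1, ht, hxx, hzx, hzx'⟩ := hc
  exact below8 W le_rfl (s7F_of_nj h hnj) (W.starT_three (Or.inl ⟨rfl, rfl⟩))
    (W.cc_r2 hx h1 hxx hzx hzx') hl hx hzx

end Pool.Agent.GaussPoset.Fi
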