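import Pool.Agent.W_448hcc_h53.HcG
import Pool.Agent.W_448t6_h16.TD

/-!
Case B, `m = 6`: no element (C) (MP_448cb3_co, input HCC at `m = 6`).
-/

namespace Pool.Agent.GaussPoset.Hc

set_option linter.unusedSectionVars false

open Polynomial Finset Cl Wd

universe u

variable {P : Type u} [Fintype P] [PartialOrder P] [DecidableEq P] {r : ℕ}
variable {t : Tops P} {lo hi : ℕ → ℕ} {e : ℕ → ℕ → P}

/-- the number of cells of level `l` above the cell `s` of the last row -/
def nbw (a : ℕ) (w : List Ltr) (s l : ℕ) : ℕ :=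
  (upI (losW a w) (hisW a w) 12 s (12 - l)).2 + 1 - (upI (losW a w) (hisW a w) 12 s (12 - l)).1

lemma nab_cell {a : ℕ} {w : List Ltr} (D : WordD 12 a w lo hi) (C : Cp.Comp 12 (t : P) lo hi e)
    (H : Gr P r) (hg : ∀ l, l < 12 → Win.Good P l) {s : ℕ} (h1 : losW a w 12 ≤ s)
    (h2 : s ≤ hisW a w 12) {l : ℕ} (hl : l ≤ 12) : nab l (e 12 s) = nbw a w s l := by
  obtain ⟨r1, r2⟩ := D.rows C
  have h3 := nab_upI C H hg t.2 (s := s) (by rw [r1 12 le_rfl]; exact h1)
    (by rw [r2 12 le_rfl]; exact h2) (m := 12 - l) (by omega)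
  have h4 : upI lo hi 12 s (12 - l) = upI (losW a w) (hisW a w) 12 s (12 - l) := by
    have := upI_congr (L := losW a w) (H := hisW a w) (lo := lo) (hi := hi) (B := 0)
      (N := 12) (s := s) (fun n hn => by rw [Nat.zero_add]; exact (r1 n hn).symm)
      (fun n hn => by rw [Nat.zero_add]; exact (r2 n hn).symm) (12 - l) (by omega)
    rw [this]
  rw [h4, show 12 - (12 - l) = l by omega] at h3
  exact h3

lemma ct_cell {a : ℕ} {w : List Ltr} (D : WordD 12 a w lo hi) (C : Cp.Comp 12 (t : P) lo hi e)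
    (H : Gr P r) (hg : ∀ l, l < 12 → Win.Good P l) {s : ℕ} (h1 : losW a w 12 ≤ s)
    (h2 : s ≤ hisW a w 12) (k : ℕ) :
    ct 6 k (e 12 s) = ∑ l ∈ range 13, min k (l - 6) * nbw a w s l := by
  obtain ⟨r1, r2⟩ := D.rows C
  have hl := C.lev_e 12 s le_rfl (by rw [r1 12 le_rfl]; exact h1) (by rw [r2 12 le_rfl]; exact h2)
  unfold ct
  rw [cst_eq, hl]
  refine Finset.sum_congr rfl fun l hl' => ?_
  rw [mem_range] at hl'
  rw [nab_cell D C H hg h1 h2 (by omega)]

/-- the cost of an element of level 13 below a cell -/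
lemma cost_cell {a : ℕ} {w : List Ltr} (D : WordD 12 a w lo hi) (C : Cp.Comp 12 (t : P) lo hi e)
    (H : Gr P r) (hg : ∀ l, l < 12 → Win.Good P l) {s : ℕ} (h1 : losW a w 12 ≤ s)
    (h2 : s ≤ hisW a w 12) {k : ℕ} (hk : k ≤ 7)
    (hc : 22 ≤ k + ∑ l ∈ range 13, min k (l - 6) * nbw a w s l) {z : P} (hz : z ⋖ e 12 s) :
    22 ≤ ct 6 k z := by
  obtain ⟨r1, r2⟩ := D.rows C
  have hl := C.lev_e 12 s le_rfl (by rw [r1 12 le_rfl]; exact h1) (by rw [r2 12 le_rfl]; exact h2)
  have h3 := (H.covBy_iff.mp hz).2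
  have h4 := ct_cov (i := 6) (k := k) hz.1
  rw [ct_cell D C H hg h1 h2, Nat.min_eq_left (by omega)] at h4
  omega

/-- an element outside of the natural set below an element of level at most `11` -/
lemma lev_of_not {h12 : ∀ x, x ≤ (t : P) → lev x ≤ 12 → x ∈ lowPart 12 (t : P)} (H : Gr P r)
    {x z : P} (hx : x ≤ (t : P)) (hzx : z ⋖ x) (hz : z ∉ lowPart 12 (t : P)) : 12 ≤ lev x := by
  by_contra hcon
  have h3 := (H.covBy_iff.mp hzx).2
  exact hz (h12 z (hzx.le.trans hx) (by omega))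

/-- strips with large costs -/
theorem tyK_word {a : ℕ} {w : List Ltr} (D : WordD 12 a w lo hi)
    (C : Cp.Comp 12 (t : P) lo hi e) (h : Win.GoodTo P r 12) {thv : ℕ → ℕ → ℕ} {x0 : P}
    (hN : NatTop 6 t 2 (lowPart 12 (t : P)) (thC lo hi e thv) (fun x => x = x0))
    (h6 : losW a w 6 + 1 = hisW a w 6)
    (hc : ∀ s, losW a w 12 ≤ s → s ≤ hisW a w 12 → thv 12 s + 1 ≤ 7 ∧
      22 ≤ thv 12 s + 1 + ∑ l ∈ range 13, min (thv 12 s + 1) (l - 6) * nbw a w s l) :
    ∃ N θ, TyK (P := P) 6 (Ke 6) t (hi 6 - lo 6 + 1) N θ := by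
  have H := h.H
  have hg := h.good
  obtain ⟨r1, r2⟩ := D.rows C
  have hb : hi 6 - lo 6 + 1 = 2 := by
    rw [r1 6 (by norm_num), r2 6 (by norm_num)]
    omega
  rw [hb, show Ke 6 = 22 from Ke_even 3]
  refine ⟨_, _, TyK.oth ⟨_, hN⟩ (fun x hx => hx) ?_ ?_⟩
  · intro z hz x hx hzx
    left
    rw [mem_lowPart] at hx
    have h1 : 12 ≤ lev x := by
      by_contra hcon
      have h3 := (H.covBy_iff.mp hzx).2
      exact hz (mem_lowPart.mpr ⟨hzx.le.trans hx.1, by omega⟩)
    obtain ⟨s, s1, s2, hs⟩ := C.surj x hx.1 hx.2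
    have hl : lev x = 12 := by omega
    rw [hl] at s1 s2 hs
    subst hs
    have s1' : losW a w 12 ≤ s := by rw [← r1 12 le_rfl]; exact s1
    have s2' : s ≤ hisW a w 12 := by rw [← r2 12 le_rfl]; exact s2
    obtain ⟨c1, c2⟩ := hc s s1' s2'
    rw [thC_e C thv le_rfl s1 s2]
    exact cost_cell D C H hg s1' s2' c1 c2 hzx
  · intro z _ x hx hl htw
    have h1 := lev_eq_of_up htw
    have h2 := (mem_lowPart.mp hx).2
    omega

/-- `E7` at level 12 -/
theorem tyK_E7 (D : WordD 12 4 w7 lo hi) (C : Cp.Comp 12 (t : P) lo hi e)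
    (h : Win.GoodTo P r 12) : ∃ N θ, TyK (P := P) 6 (Ke 6) t (hi 6 - lo 6 + 1) N θ := by
  refine tyK_word D C h (natTopC_E7_6 D C h.H h.good (by norm_num) (by norm_num))
    (by decide +kernel) ?_
  intro s s1 s2
  have e1 : losW 4 w7 12 = 4 ∧ hisW 4 w7 12 = 5 := by decide +kernel
  rw [e1.1] at s1
  rw [e1.2] at s2
  rcases (show s = 4 ∨ s = 5 by omega) with h1 | h1 <;> subst h1 <;> decide +kernel

/-- `La5` at level 12 -/
theorem tyK_La5 (D : WordD 12 5 wa5 lo hi) (C : Cp.Comp 12 (t : P) lo hi e)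
    (h : Win.GoodTo P r 12) : ∃ N θ, TyK (P := P) 6 (Ke 6) t (hi 6 - lo 6 + 1) N θ := by
  refine tyK_word D C h (natTopC_La5_6 D C h.H h.good (by norm_num) (by norm_num))
    (by decide +kernel) ?_
  intro s s1 s2
  have e1 : losW 5 wa5 12 = 3 ∧ hisW 5 wa5 12 = 5 := by decide +kernel
  rw [e1.1] at s1
  rw [e1.2] at s2
  rcases (show s = 3 ∨ s = 4 ∨ s = 5 by omega) with h1 | h1 | h1 <;> subst h1 <;> decide +kernel

/-- `La6` at level 12, natural row -/
theorem tyK_La6 (D : WordD 12 6 wa6 lo hi) (C : Cp.Comp 12 (t : P) lo hi e)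
    (h : Win.GoodTo P r 12) (hnat : Win.NatT 12 (t : P))
    (hnj : ∀ z : P, lev z = 13 → ¬ Hul.Jn z) :
    ∃ N θ, TyK (P := P) 6 (Ke 6) t (hi 6 - lo 6 + 1) N θ := by
  classical
  have H := h.H
  have hg := h.good
  obtain ⟨r1, r2⟩ := D.rows C
  have e1 : losW 6 wa6 12 = 3 ∧ hisW 6 wa6 12 = 6 ∧ losW 6 wa6 11 = 3 ∧ hisW 6 wa6 11 = 5 ∧
      losW 6 wa6 6 = 0 ∧ hisW 6 wa6 6 = 1 := by decide +kernel
  have l12 : lo 12 = 3 := by rw [r1 12 le_rfl, e1.1]
  have u12 : hi 12 = 6 := by rw [r2 12 le_rfl, e1.2.1]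
  have l11 : lo 11 = 3 := by rw [r1 11 (by norm_num), e1.2.2.1]
  have u11 : hi 11 = 5 := by rw [r2 11 (by norm_num), e1.2.2.2.1]
  have hb : hi 6 - lo 6 + 1 = 2 := by
    rw [r1 6 (by norm_num), r2 6 (by norm_num), e1.2.2.2.2.1, e1.2.2.2.2.2]
  rw [hb, show Ke 6 = 22 from Ke_even 3]
  have hle : ∀ s, 3 ≤ s → s ≤ 6 → e 12 s ≤ (t : P) := fun s h1 h2 =>
    C.le_t 12 s le_rfl (by omega) (by omega)
  have hlv : ∀ s, 3 ≤ s → s ≤ 6 → lev (e 12 s) = 12 := fun s h1 h2 =>
    C.lev_e 12 s le_rfl (by omega) (by omega)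
  have hinj : ∀ s s', 3 ≤ s → s ≤ 6 → 3 ≤ s' → s' ≤ 6 → e 12 s = e 12 s' → s = s' :=
    fun s s' h1 h2 h3 h4 hh => C.inj 12 s s' le_rfl (by omega) (by omega) (by omega) (by omega) hh
  have hcv : ∀ s s', 3 ≤ s → s ≤ 6 → 3 ≤ s' → s' ≤ 5 →
      (e 12 s ⋖ e 11 s' ↔ (s' = s ∨ s' + 1 = s)) := fun s s' h1 h2 h3 h4 =>
    C.cov 11 s s' (by norm_num) (by show lo 12 ≤ s; omega) (by show s ≤ hi 12; omega)
      (by omega) (by omega)
  -- common upper covers of the end
  have hup6 : ∀ v, e 12 6 ⋖ v → v = e 11 5 := by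
    intro v hv
    obtain ⟨s', h4, h5, h6, h7⟩ := C.cov_up H hg t.2 (k := 11) (s := 6) (by norm_num)
      (by show lo 12 ≤ 6; omega) (by show 6 ≤ hi 12; omega) hv
    rw [h6, show s' = 5 by omega]
  have hcommon : ∀ s, 3 ≤ s → s ≤ 5 → ucv (e 12 6) (e 12 s) = if s = 5 then 1 else 0 := by
    intro s h1 h2
    by_cases h5 : s = 5
    · rw [if_pos h5, h5]
      unfold ucv
      rw [Finset.card_eq_one]
      refine ⟨e 11 5, ?_⟩
      ext v
      simp only [mem_filter, mem_univ, true_and, mem_singleton]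
      constructor
      · exact fun hv => hup6 v hv.1
      · rintro rfl
        exact ⟨(hcv 6 5 (by norm_num) (by norm_num) (by norm_num) (by norm_num)).mpr
            (by norm_num),
          (hcv 5 5 (by norm_num) (by norm_num) (by norm_num) (by norm_num)).mpr
            (by norm_num)⟩
    · rw [if_neg h5]
      unfold ucv
      rw [Finset.card_eq_zero, Finset.filter_eq_empty_iff]
      rintro v - ⟨hv1, hv2⟩
      rw [hup6 v hv1] at hv2
      have := (hcv s 5 h1 (by omega) (by norm_num) (by norm_num)).mp hv2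
      omega
  have hdc : ∀ s, 3 ≤ s → s ≤ 5 → dcv (e 12 6) (e 12 s) = if s = 5 then 1 else 0 := by
    intro s h1 h2
    rw [← hcommon s h1 h2]
    refine (hnat _ _ (hlv 6 (by norm_num) le_rfl) (hlv s h1 (by omega)) (hle 6 (by norm_num)
      le_rfl) (hle s h1 (by omega)) ?_).symm
    intro hh
    have := hinj 6 s (by norm_num) le_rfl h1 (by omega) hh
    omega
  have h56 := hdc 5 (by norm_num) le_rfl
  rw [if_pos rfl] at h56
  unfold dcv at h56
  obtain ⟨z0, hz0⟩ := Finset.card_eq_one.mp h56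
  have hz0' : ∀ v, (v ⋖ e 12 6 ∧ v ⋖ e 12 5) ↔ v = z0 := by
    intro v
    have : v ∈ (univ.filter (fun x : P => x ⋖ e 12 6 ∧ x ⋖ e 12 5)) ↔ v ∈ ({z0} : Finset P) := by
      rw [hz0]
    simpa using this
  obtain ⟨z6, z5⟩ := (hz0' z0).mpr rfl
  obtain ⟨θ, hN, t3, t4, t5, t6, tz⟩ := natTop_Ha6 D C H hg z6 z5
  have hlz0 : lev z0 = 13 := by
    have := (H.covBy_iff.mp z6).2
    rw [hlv 6 (by norm_num) le_rfl] at this
    exact this
  have hrow : ∀ s, 3 ≤ s → s ≤ 6 → losW 6 wa6 12 ≤ s ∧ s ≤ hisW 6 wa6 12 := by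
    intro s h1 h2
    rw [e1.1, e1.2.1]
    exact ⟨h1, h2⟩
  refine ⟨_, θ, TyK.oth ⟨_, hN⟩ (fun x hx => mem_insert_of_mem hx) ?_ ?_⟩
  · intro z hz x hx hzx
    rw [mem_insert, not_or] at hz
    rcases mem_insert.mp hx with hx | hx
    · -- below `z0`
      left
      subst hx
      have h3 := (H.covBy_iff.mp hzx).2
      have h4 := ct_cov (i := 6) (k := θ x + 1) hzx.1
      have h5 := ct_cov (i := 6) (k := θ x + 1) z5.1
      rw [tz] at h4 h5 ⊢
      have h6 : ct 6 (1 + 1) (e 12 5) = 20 := by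
        rw [ct_cell D C H hg (hrow 5 (by norm_num) (by norm_num)).1
          (hrow 5 (by norm_num) (by norm_num)).2]
        decide +kernel
      rw [h6] at h5
      rw [h3, hlz0] at h4
      rw [hlz0] at h5
      have m1 : min (1 + 1) (13 - 6) = 2 := by norm_num
      have m2 : min (1 + 1) (13 + 1 - 6) = 2 := by norm_num
      rw [m1] at h5
      rw [m2] at h4
      omega
    · have hx' := mem_lowPart.mp hx
      have h1 : 12 ≤ lev x := by
        by_contra hcon
        have h3 := (H.covBy_iff.mp hzx).2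
        exact hz.2 (mem_lowPart.mpr ⟨hzx.le.trans hx'.1, by omega⟩)
      obtain ⟨s, s1, s2, hs⟩ := C.surj x hx'.1 hx'.2
      have hl : lev x = 12 := by omega
      rw [hl] at s1 s2 hs
      subst hs
      rcases (show s = 3 ∨ s = 4 ∨ s = 5 ∨ s = 6 by omega) with h2 | h2 | h2 | h2
      · left
        subst h2
        rw [t3]
        exact cost_cell D C H hg (hrow 3 (by norm_num) (by norm_num)).1
          (hrow 3 (by norm_num) (by norm_num)).2 (by norm_num) (by decide +kernel) hzx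
      · left
        subst h2
        rw [t4]
        exact cost_cell D C H hg (hrow 4 (by norm_num) (by norm_num)).1
          (hrow 4 (by norm_num) (by norm_num)).2 (by norm_num) (by decide +kernel) hzx
      · left
        subst h2
        rw [t5]
        exact cost_cell D C H hg (hrow 5 (by norm_num) (by norm_num)).1
          (hrow 5 (by norm_num) (by norm_num)).2 (by norm_num) (by decide +kernel) hzx
      · right
        subst h2
        have hlz : lev z = 13 := by
          have := (H.covBy_iff.mp hzx).2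
          omega
        refine ⟨hl, t6, ⟨hzx, ?_⟩, by norm_num, ?_⟩
        · -- a second cover
          intro y hy
          by_contra hne
          have hly : lev y = 12 := by
            have := (H.covBy_iff.mp hy).2
            omega
          have hyt : y ≤ (t : P) := by
            by_contra hyt
            refine hnj z hlz ⟨topOf y, t, (topOf y).2, t.2, ?_, hy.le.trans (le_topOf y),
              hzx.le.trans (hle 6 (by norm_num) le_rfl)⟩
            intro hh
            exact hyt (by rw [← hh]; exact le_topOf y)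
          obtain ⟨s', s1', s2', hs'⟩ := C.surj y hyt (by omega)
          rw [hly] at s1' s2' hs'
          subst hs'
          have hs6 : s' ≠ 6 := fun hh => hne (by rw [hh])
          by_cases h5 : s' = 5
          · subst h5
            exact hz.1 ((hz0' z).mp ⟨hzx, hy⟩)
          · have h7 := hdc s' (by omega) (by omega)
            rw [if_neg h5] at h7
            unfold dcv at h7
            rw [Finset.card_eq_zero, Finset.filter_eq_empty_iff] at h7
            exact h7 (mem_univ z) ⟨hzx, hy⟩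
        · intro u hu
          rw [nab_cell D C H hg (hrow 6 (by norm_num) (by norm_num)).1
            (hrow 6 (by norm_num) (by norm_num)).2 (by omega)]
          have key : ∀ u < 7, nbw 6 wa6 6 (6 + u) = if 6 + u = 6 then 2 else 1 := by
            decide +kernel
          exact key u (by omega)
  · intro z hz x hx hl htw
    rw [mem_insert, not_or] at hz
    have h1 := lev_eq_of_up htw
    rcases mem_insert.mp hx with hx | hx
    · subst hx
      exact hz.1 ((hz0' z).mp ⟨(cov_of_up htw).mp z6, (cov_of_up htw).mp z5⟩)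
    · have h2 := (mem_lowPart.mp hx).2
      omega

lemma late12_6 : ∀ w ∈ lateW 6, w.length = 6 → w = wa6.take 6 := by
  decide +kernel

lemma late12_5 : ∀ w ∈ lateW 5, w.length = 7 → w = wa5.take 7 := by
  decide +kernel

lemma late12_4 : ∀ w ∈ lateW 4, w.length = 8 → w = w7.take 8 := by
  decide +kernel

lemma late12_3 : ∀ w ∈ lateW 3, w.length ≠ 9 := by
  decide +kernel

/-- **(C), `m = 6`.** -/
theorem no_cc_six (h : Win.GoodTo P r (2 * 6)) {lo hi : Tops P → ℕ → ℕ}
    {e : Tops P → ℕ → ℕ → P}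
    (C : ∀ t : Tops P, Cp.Comp (2 * 6) (t : P) (lo t) (hi t) (e t))
    (hS : ∀ t, Wd.Shape (2 * 6) (lo t) (hi t))
    (hT : ∀ t : Tops P, Win.NatT (2 * 6) (t : P) ∨ StairShape (2 * 6) (lo t) (hi t))
    (hnj : ∀ z : P, lev z = 2 * 6 + 1 → ¬ Hul.Jn z) {t : Tops P} {z : P}
    (S : StairShape (2 * 6) (lo t) (hi t)) (h0 : lo t (2 * 6) = 0)
    (hz1 : z ⋖ e t (2 * 6) 6) (hz2 : z ⋖ e t (2 * 6) 0) : False := by
  refine caseB_no_cc (by norm_num) (by norm_num) h C hS ?_ hnj S h0 hz1 hz2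
  intro t a ha D hw
  have hlen : (Wd.word (lo t) (hi t) a (2 * 6 - a)).length = 2 * 6 - a := Wd.word_length
  have h3 := D.h0
  obtain rfl | rfl | rfl | rfl : a = 3 ∨ a = 4 ∨ a = 5 ∨ a = 6 := by omega
  · exact absurd hlen (late12_3 _ hw)
  · exact tyK_E7 (⟨D.h2, D.h3, late12_4 _ hw hlen⟩ : WordD 12 4 w7 (lo t) (hi t)) (C t) h
  · exact tyK_La5 (⟨D.h2, D.h3, late12_5 _ hw hlen⟩ : WordD 12 5 wa5 (lo t) (hi t)) (C t) h
  · have D' : WordD 12 6 wa6 (lo t) (hi t) := ⟨D.h2, D.h3, late12_6 _ hw hlen⟩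
    refine tyK_La6 D' (C t) h ?_ hnj
    rcases hT t with g | g
    · exact g
    · exfalso
      have g1 := g.hi 6 (by norm_num)
      have g2 := D.h3
      omega

end Pool.Agent.GaussPoset.Hc
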