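import Pool.Agent.W_448hcc_h53.HcB

/-!
Case B at window `m`: twins, truncated data, the boundary.
-/

namespace Pool.Agent.GaussPoset.Hc

set_option linter.unusedSectionVars false

open Polynomial Finset

universe u

variable {P : Type u} [Fintype P] [PartialOrder P] [DecidableEq P] {r m K : ℕ}
  {N : Tops P → Finset P} {b : Tops P → ℕ} {θ : Tops P → P → ℕ}

theorem WH.twSys (W : WH r m K N b θ) : TwSys (unnat N) (twY (2 * m) N) topOf (twT N) :=
  twSys_of W.gt.H W.natSys

/-- natural elements of level at least `2 m + 1` -/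
theorem WH.kap (W : WH r m K N b θ) {x : P} (hx : x ∉ unnat N) (hl : 2 * m + 1 ≤ lev x) :
    FullM m N θ x ∨ OthH m K N θ x ∨ K ≤ ct m (θ (topOf x) x + 1) x + (θ (topOf x) x + 1) := by
  have hm := W.two
  rcases W.cases hx with h | ⟨Nc, co, h⟩ | ⟨Nc, co, h⟩ | h | h
  · exact Or.inl h
  · right; right
    have h1 := W.K_le
    rw [pow_two] at h1
    refine le_trans (by omega) (kap_chart (by omega) h.rect.chart h.mem h.fst h.snd hl ?_)
    rw [h.th]
  · right; right
    refine kap_chartG W.kap0 (by omega) h.stair.chart h.mem h.fst hl ?_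
    rw [h.th]
  · have := h.1.lev
    omega
  · exact Or.inr (Or.inl h)

lemma WH.tw_inner (W : WH r m K N b θ) {x : P} (hx : x ∈ twY (2 * m) N) :
    (∃ Nc co, InRM m N b θ (twT N x) Nc co) ∨ ∃ Nc co, InSM m N b θ (twT N x) Nc co := by
  have h1 := mem_twY.mp hx
  have h3 := twT_spec h1.2.2
  rcases W.cases h3.1 with h | h | h | h | h
  · exact absurd h3.2 (h.tw x h1.1)
  · exact Or.inl h
  · exact Or.inr h
  · have h4 := h.1.lev
    have h5 := W.twSys.lev hx
    omega
  · exact absurd h3.2 (h.tw x h1.1 _ h.mem h1.2.1)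

lemma WH.tw_kap (W : WH r m K N b θ) {x : P} (hx : x ∈ twY (2 * m) N) :
    K ≤ ct m (θ (topOf (twT N x)) (twT N x) + 1) (twT N x) +
      (θ (topOf (twT N x)) (twT N x) + 1) := by
  have h1 := mem_twY.mp hx
  have h3 := twT_spec h1.2.2
  have h5 := W.twSys.lev hx
  rcases W.kap h3.1 (by omega) with h | h | h
  · exact absurd h3.2 (h.tw x h1.1)
  · exact absurd h3.2 (h.tw x h1.1 _ h.mem h1.2.1)
  · exact h

lemma WH.tw_th (W : WH r m K N b θ) {x : P} (hx : x ∈ twY (2 * m) N) :
    1 ≤ θ (topOf (twT N x)) (twT N x) ∧ θ (topOf (twT N x)) (twT N x) ≤ m := by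
  have h1 := mem_twY.mp hx
  have h5 := W.twSys.lev hx
  have hm := W.two
  rcases W.tw_inner hx with ⟨Nc, co, h⟩ | ⟨Nc, co, h⟩
  · have h6 := h.rect.chart.lev _ h.mem
    have h7 := h.fst
    have h8 := h.snd
    have h9 := h.th
    omega
  · have h6 := h.stair.chart.lev _ h.mem
    have h7 := h.fst
    have h8 : (co (twT N x)).1 ≤ (co (twT N x)).2 := h.stair.chart.mem _ h.mem
    have h9 := h.th
    omega

/-- the twins are harmless below energy `K - 1` -/
theorem WH.twinPair (W : WH r m K N b θ) {x : P} (hx : x ∈ twY (2 * m) N) :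
    TwinPair m (thX (twY (2 * m) N) (twT N) (fun x => θ (topOf x) x)) (K - 1) (twT N x) x := by
  classical
  have T := W.twSys
  have h1 := mem_twY.mp hx
  have hlev : lev (twT N x) = 2 * m + 1 := by rw [T.lev hx]; exact h1.2.1
  have hnY : twT N x ∉ twY (2 * m) N := fun h => T.nat x hx (mem_twY.mp h).1
  obtain ⟨h3, h4⟩ := W.tw_th hx
  have h5 := W.tw_kap hx
  have hth : thX (twY (2 * m) N) (twT N) (fun x => θ (topOf x) x) (twT N x) =
      θ (topOf (twT N x)) (twT N x) := thX_not hnY
  have hth' : thX (twY (2 * m) N) (twT N) (fun x => θ (topOf x) x) x =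
      θ (topOf (twT N x)) (twT N x) := thX_of hx
  refine ⟨?_, T.up x hx, ?_, ?_, ?_, ?_, ?_⟩
  · intro h
    exact T.nat x hx (h.symm ▸ h1.1)
  · rw [hth]; exact h3
  · rw [hth, hth']
  · rw [hth, hlev]; omega
  · rw [hth]
    have h6 : ct m (θ (topOf (twT N x)) (twT N x) + 1) (twT N x) ≤
        ∑ y, (if twT N x ≤ y then lev y - m else 0) := by
      rw [ct_eq_sum]
      refine Finset.sum_le_sum fun y _ => ?_
      split_ifs
      · exact Nat.min_le_right _ _
      · exact le_rfl
    omega
  · rw [hth]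
    have h6 := ct_succ m (θ (topOf (twT N x)) (twT N x) + 1) (twT N x)
    rw [hlev, Nat.min_eq_left (by omega)] at h6
    omega

/-- truncated data at window `m` -/
theorem WH.farT (W : WH r m K N b θ) : FarT P m (r2 (2 * m) N) (lv P m).card
    (h2 (2 * m) N θ) (K - 1) := by
  choose B hB using W.natTop
  have h := farT_of_tops W.gt.H.gradedBelow hB W.twSys (K - 1) (fun x hx => W.twinPair hx)
  rw [W.sum_b] at h
  exact h

/-- the boundary: level `2 m + 1` or large cost -/
theorem WH.bd (W : WH r m K N b θ) {z : P} (hz : z ∈ bdR (r2 (2 * m) N)) :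
    lev z = 2 * m + 1 ∨ K ≤ cst m (h2 (2 * m) N θ) z := by
  classical
  have H := W.gt.H
  have hm := W.two
  have T := W.twSys
  have hzR : z ∈ unnat N := (mem_sdiff.mp (mem_filter.mp hz).1).1
  have hlz := W.lt_lev hzR
  by_cases hl : lev z = 2 * m + 1
  · exact Or.inl hl
  right
  obtain ⟨u, hu, hzu, hh⟩ := hcan_spec
    (θ := thX (twY (2 * m) N) (twT N) (fun x => θ (topOf x) x)) hz
  have hlu := (H.covBy_iff.mp hzu).2
  have hc : ∀ k, h2 (2 * m) N θ z = k → cst m (h2 (2 * m) N θ) z = ct m k z := by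
    intro k hk
    unfold ct cst ez
    rw [hk]
  have key : ∀ (u' : P) (k : ℕ), ct m k u = ct m k u' → K ≤ ct m k u' + k → k ≤ lev z - m →
      h2 (2 * m) N θ z = k → K ≤ cst m (h2 (2 * m) N θ) z := by
    intro u' k h3 h4 h5 h6
    have h7 := ct_cov (i := m) (k := k) hzu.1
    rw [Nat.min_eq_left h5] at h7
    rw [hc k h6]
    omega
  by_cases huY : u ∈ twY (2 * m) N
  · rw [thX_of huY] at hh
    have h3 := W.tw_th huY
    exact key (twT N u) _ (ct_congr_up fun w => (T.up u huY w).symm) (W.tw_kap huY) (by omega) hh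
  · have huR : u ∉ unnat N := fun h => hu (mem_sdiff.mpr ⟨h, huY⟩)
    rw [thX_not huY] at hh
    rcases W.kap huR (by omega) with hF | hO | hI
    · rw [hF.th] at hh
      have h3 := sq_le_cst (i := m) (h := h2 (2 * m) N θ) (z := z) (by omega)
        (by show h2 (2 * m) N θ z = _; rw [show h2 (2 * m) N θ z = _ from hh]; omega) (by
          intro k hk hk2
          exact hF.two z hzR hzu.le k (by omega) (by omega))
      have h4 : (m + 1) ^ 2 ≤ (lev z - m) ^ 2 := Nat.pow_le_pow_left (by omega) 2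
      exact (W.K_le.trans h4).trans h3
    · rcases hO.cost z hzR u hO.mem hzu with hO | hO
      · rw [hc _ hh]
        exact hO
      · have := hO.1
        omega
    · have h5 := W.farT.le_lev z hz
      exact key u _ rfl hI (by rw [show h2 (2 * m) N θ z = _ from hh] at h5; exact h5) hh

end Pool.Agent.GaussPoset.Hc
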