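import Pool.Agent.W_448hcc_h53.HcD

/-!
Case B at window `m`: there are no (C) elements.
-/

namespace Pool.Agent.GaussPoset.Hc

set_option linter.unusedSectionVars false

open Polynomial Finset

universe u

variable {P : Type u} [Fintype P] [PartialOrder P] [DecidableEq P] {r m K : ℕ}
  {N : Tops P → Finset P} {b : Tops P → ℕ} {θ : Tops P → P → ℕ}

lemma WH.num_penQ (W : WH r m K N b θ) {z x : P} (hz : z ∈ r2 (2 * m) N)
    (hl : lev z = 2 * m + 1) (hx : QPn m (θ (topOf x)) z x) :
    Num m N θ z 1 (m + 1) 1 2 := by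
  have hm := W.two
  obtain ⟨hlx, hth, hp, -, hq⟩ := hx
  have hn : ∀ u, u ≤ m → nab (m + u) z = if m + u = m then 2 else 1 := by
    intro u hu
    rw [nab_pend hp (by omega)]
    exact hq u hu
  refine Num.mk' hl (by omega) ?_ ?_ ?_ ?_
  · rw [W.h2_eq hz hl hp.1 (fun y hy => by rw [hp.2 y hy]), hth]
  · rw [vs_quad (a := m) le_rfl (by omega) hn, NL_one, Nat.sub_self, Nat.min_zero]
  · have h1 := hn 0 (by omega)
    have h2 := hn 1 (by omega)
    rw [if_pos (by omega)] at h1
    rw [if_neg (by omega)] at h2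
    rw [Nat.add_zero] at h1
    omega
  · have h1 := hn 0 (by omega)
    rw [if_pos (by omega)] at h1
    rw [Finset.sum_range_one, h1]

lemma WH.num_penF (W : WH r m K N b θ) {z x : P} (hz : z ∈ r2 (2 * m) N)
    (hl : lev z = 2 * m + 1) (hx : FoldM m N b θ x) (hp : Pend z x) :
    Num m N θ z (hh m) (NF m (hh m) + hh m) 1 (sgF m) := by
  have hm := W.two
  have hh2 := hh_le m
  have hn : ∀ u, u ≤ m → nab (m + u) z = nab (m + u) x := by
    intro u hu
    exact nab_pend hp (by omega)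
  refine Num.mk' hl (by omega) ?_ ?_ ?_ ?_
  · rw [W.h2_eq hz hl hp.1 (fun y hy => by rw [hp.2 y hy]), hx.th, hh_eq]
  · rw [vs_congr hn, hx.vs]
  · have h1 := hn 0 (by omega)
    rw [Nat.add_zero] at h1
    have h3 := hx.nab (u := 0) (by omega)
    rw [Nat.add_zero] at h3
    rw [h1, h3, hn (hh m) (by omega), hx.nab (by omega), nF_drop (by omega)]
  · unfold sgF
    refine Finset.sum_congr rfl fun u hu => ?_
    rw [mem_range] at hu
    rw [hn u (by omega), hx.nab (by omega)]

/-- the step: all terms of maximal drop have the same sign, so there are none -/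
theorem WH.kill (W : WH r m K N b θ) {n : ℕ} (hn : n < K - 1)
    (hcost : ∀ z ∈ bdR (r2 (2 * m) N), n ≤ cst m (h2 (2 * m) N θ) z) (σ : ℤ) (hσ : σ ≠ 0) (δ : ℕ)
    (hδ : 1 ≤ δ)
    (h1 : ∀ z ∈ bdR (r2 (2 * m) N), cst m (h2 (2 * m) N θ) z = n →
      nab m z ≤ nab (m + h2 (2 * m) N θ z) z + δ)
    (h3 : ∀ z ∈ bdR (r2 (2 * m) N), cst m (h2 (2 * m) N θ) z = n →
      nab m z = nab (m + h2 (2 * m) N θ z) z + δ → (-1 : ℤ) ^ nst m (h2 (2 * m) N θ) z = σ) :
    ∀ z ∈ bdR (r2 (2 * m) N), cst m (h2 (2 * m) N θ) z = n →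
      nab m z ≠ nab (m + h2 (2 * m) N θ z) z + δ := by
  classical
  intro z0 hz0 hc0 hd0
  have F := W.farT
  have hd := F.dvd_lead hn hcost
  have hZ := dvd_Z W.gt.H.gauss m n
  set T := (bdR (r2 (2 * m) N)).filter (fun z => cst m (h2 (2 * m) N θ) z = n) with hT
  have hb : δ ≤ (lv P m).card := by
    have h5 : nab m z0 ≤ (lv P m).card := by
      unfold nab
      exact Finset.card_filter_le _ _
    omega
  have hs := sign_sum_of_dvd T hZ hd (c0 := (lv P m).card - δ) (by omega) (by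
    intro y hy
    rw [hT, mem_filter] at hy
    have h4 := h1 y hy.1 hy.2
    omega)
  set T' := T.filter (fun y => (lv P m).card - δ + nab m y =
    (lv P m).card + nab (m + h2 (2 * m) N θ y) y) with hT'
  have hz0T : z0 ∈ T' := by
    rw [hT', mem_filter, hT, mem_filter]
    exact ⟨⟨hz0, hc0⟩, by omega⟩
  rw [Finset.sum_congr rfl (g := fun _ => σ)] at hs
  · rw [Finset.sum_const, nsmul_eq_mul] at hs
    rcases mul_eq_zero.mp hs with h4 | h4
    · have h5 : T'.card = 0 := by exact_mod_cast h4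
      rw [Finset.card_eq_zero] at h5
      rw [h5] at hz0T
      exact absurd hz0T (Finset.notMem_empty _)
    · exact hσ h4
  · intro y hy
    rw [hT', mem_filter, hT, mem_filter] at hy
    exact h3 y hy.1.1 hy.1.2 (by omega)

/-- the data of a (C) element -/
lemma WH.cel (W : WH r m K N b θ) {z F S : P} {Nc : Finset P} {co : P → ℕ × ℕ}
    (hF : InSM m N b θ F Nc co) (hcF : co F = (m, m)) (hS : S ∈ Nc) (hcS : co S = (0, 2 * m))
    (hzF : z ⋖ F) (hzS : z ⋖ S) : CEl (topOf F) Nc co m z F S where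
  chart := hF.stair.chart
  strip := hF.stair.strip
  F_mem := hF.mem
  S_mem := hS
  co_F := hcF
  co_S := hcS
  zF := hzF
  zS := hzS
  only := by
    have hm := W.two
    have hne : F ≠ S := by
      rintro rfl
      rw [hcF, Prod.mk.injEq] at hcS
      omega
    exact fun y hy => uc_pair W.gt.H hzF hzS hne hy

/-- the straight end of the stair of a fold end -/
lemma WH.cc_full (W : WH r m K N b θ) {x x' : P} {Nc : Finset P} {co : P → ℕ × ℕ}
    (hx : InSM m N b θ x Nc co)
    (hcx : co x = (m, m)) (hx' : x' ∈ Nc) (hcx' : co x' = (0, 2 * m))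
    (hO : ¬ OthH m K N θ x') :
    FullM m N θ x' ∧ topOf x' = topOf x := by
  classical
  have H := W.gt.H
  have hm := W.two
  have C := hx.stair.chart
  have hlx : lev x = 2 * m := by
    rw [C.lev x hx.mem, hcx]
    simp only
    omega
  have hlx' : lev x' = 2 * m := by
    rw [C.lev x' hx', hcx']
    simp only
    omega
  have hxN : x ∈ N (topOf x) := W.natSys.mem_iff.mpr ⟨W.low hlx.le, rfl⟩
  have htop : topOf x' = topOf x := by
    have h1 : x' ∈ N (topOf x) := by
      rw [hx.nat]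
      exact mem_natS.mpr (Or.inl hx')
    exact W.natSys.topOf_eq h1
  refine ⟨?_, htop⟩
  rcases W.kind hlx' with h | h | ⟨h, -⟩ | h | h
  · exact h
  · exfalso
    have h1 := h.nab (u := 0) (by omega)
    rw [Nat.add_zero, nab_chart C hx', hcx'] at h1
    have := card_cellsAt_shift (l := m) (p := (0, 2 * m)) (Nat.zero_le _) (by simp only; omega)
    simp only at this
    unfold nF at h1
    omega
  · exfalso
    have h1 := h.inf.unique (x := x) (x' := x') (by rw [htop]; exact le_topOf x) (le_topOf x')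
      hlx hlx'
    rw [h1, hcx'] at hcx
    simp only [Prod.mk.injEq] at hcx
    omega
  · exact absurd h hO
  · exfalso
    obtain ⟨y1, y2, hne, hyy⟩ := Finset.card_eq_two.mp h.1
    have e1 : x' ⋖ y1 := Win.mem_uc.mp (by rw [hyy]; simp)
    have e2 : x' ⋖ y2 := Win.mem_uc.mp (by rw [hyy]; simp)
    have hy1 := C.up x' hx' y1 e1.le
    have hy2 := C.up x' hx' y2 e2.le
    have f1 := (chart_cov C H hx' hy1).mp e1
    have f2 := (chart_cov C H hx' hy2).mp e2
    rw [hcx'] at f1 f2
    unfold Prd at f1 f2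
    simp only at f1 f2
    exact hne (C.inj y1 hy1 y2 hy2 (Prod.ext (by omega) (by omega)))

/-- the order of the component of a (C) element -/
lemma WH.b_cel (W : WH r m K N b θ) {z F S : P} {Nc : Finset P} {co : P → ℕ × ℕ}
    {t : Tops P} (hzU : z ∈ unnat N) (C : CEl t Nc co m z F S)
    (hO : ∀ y, z ⋖ y → ¬ OthH m K N θ y) : b t = m / 2 + 1 := by
  have hm := W.two
  have H := W.gt.H
  have hl := C.lev_z H.gradedBelow
  have hFt : F ≤ (t : P) := C.chart.le_t F C.F_mem
  have htF : topOf z = t := by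
    by_contra hne
    refine W.nj z hl ⟨topOf z, t, (topOf z).2, t.2, fun h => hne (Subtype.ext h), le_topOf z,
      C.zF.le.trans hFt⟩
  have hFF : topOf F = t := (W.top_cov hl C.zF).trans htF
  have hlF : lev F = 2 * m := by
    have := (H.covBy_iff.mp C.zF).2
    omega
  have hlS : lev S = 2 * m := by
    have := (H.covBy_iff.mp C.zS).2
    omega
  rcases W.typ t with ⟨g1, -, -, -⟩ | ⟨Nc', co', h0, -, -, -⟩ |
    ⟨Nc', co', h0, -, -, hb, -⟩ | ⟨-, -, -, g4, -⟩ | ⟨-, h2, h3, h4⟩
  · exfalso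
    refine mem_unnat.mp hzU t ?_
    rw [g1, ← htF]
    exact W.lowOnly (le_topOf z) (by omega)
  · exfalso
    obtain ⟨y, hy, hcy⟩ := h0.cell
    have hb2 := h0.b_two
    obtain ⟨y1, hy1, hc1⟩ := h0.chart.low y hy (1, 0) (by
      rw [hcy]
      exact ⟨by simp only; omega, Nat.zero_le _⟩) trivial
    obtain ⟨y2, hy2, hc2⟩ := h0.chart.low y hy (0, 1) (by
      rw [hcy]
      exact ⟨Nat.zero_le _, by simp only; omega⟩) trivial
    have l1 := h0.chart.lev y1 hy1
    have l2 := h0.chart.lev y2 hy2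
    rw [hc1] at l1
    rw [hc2] at l2
    simp only at l1 l2
    have g1 := C.strip (mem_lowPart.mpr ⟨h0.chart.le_t y1 hy1, by omega⟩)
    have g2 := C.strip (mem_lowPart.mpr ⟨h0.chart.le_t y2 hy2, by omega⟩)
    have k1 : (co y1).1 ≤ (co y1).2 := C.chart.mem y1 g1
    have k2 : (co y2).1 ≤ (co y2).2 := C.chart.mem y2 g2
    have q1 := C.chart.lev y1 g1
    have q2 := C.chart.lev y2 g2
    have he := C.chart.inj y1 g1 y2 g2 (Prod.ext (by omega) (by omega))
    rw [he, hc2, Prod.mk.injEq] at hc1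
    omega
  · exact hb
  · exfalso
    have h1 := g4.unique hFt (C.chart.le_t S C.S_mem) hlF hlS
    have h2 := C.co_F
    rw [h1, C.co_S, Prod.mk.injEq] at h2
    omega
  · exfalso
    refine hO F C.zF ⟨W.natSys.mem_iff.mpr ⟨W.low hlF.le, rfl⟩, ?_, ?_⟩
    · rw [hFF]; exact h3
    · rw [hFF]; exact h4

/-- **Case B.**  No element of level `2 m + 1` covers the fold end and the straight end. -/
theorem WH.no_cc (W : WH r m K N b θ) (h3m : m ≠ 3) (hK : E0 m + hh m ^ 2 + 2 ≤ K) {z : P}
    (hz : z ∈ r2 (2 * m) N) : E0 m < cst m (h2 (2 * m) N θ) z ∨ lev z ≠ 2 * m + 1 := by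
  classical
  have H := W.gt.H
  have hm := W.two
  have hh2 := hh_le m
  have hh1 := hh_pos m
  have hNL := NL_ge (m := m) hh1
  have hE0 : E0 m = NF m (hh m) + NL m (hh m) + hh m := rfl
  obtain ⟨g, u, hu, hmu, hg⟩ : ∃ g u, u ≤ 1 ∧ m = 2 * g + u ∧ 1 ≤ g :=
    ⟨m / 2, m % 2, by omega, by omega, by omega⟩
  -- the table
  have hrow : ∀ z ∈ bdR (r2 (2 * m) N), K ≤ cst m (h2 (2 * m) N θ) z ∨
      ((∃ x, QPn m (θ (topOf x)) z x) ∧ Num m N θ z 1 (m + 1) 1 2) ∨
      (Num m N θ z (hh m) (NF m (hh m) + hh m) 1 (sgF m)) ∨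
      (h2 (2 * m) N θ z = hh m ∧ IsC b m z ∧ cst m (h2 (2 * m) N θ) z = E0 m) := by
    intro z hz
    have hzR := bd_mem hz
    rcases W.bd hz with hl | h
    · rcases W.class hzR hl with h | ⟨x, hx⟩ | ⟨x, hx, hp⟩ |
        ⟨⟨-, F, S, Nc, co, hF, hcF, hS, hcS, hzF, hzS⟩, hO⟩
      · exact Or.inl h
      · exact Or.inr (Or.inl ⟨⟨x, hx⟩, W.num_penQ hzR hl hx⟩)
      · exact Or.inr (Or.inr (Or.inl (W.num_penF hzR hl hx hp)))
      · refine Or.inr (Or.inr (Or.inr ?_))
        have C := W.cel hF hcF hS hcS hzF hzS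
        have hfold : FoldM m N b θ F := ⟨Nc, co, hF, hcF⟩
        obtain ⟨hfull, htop⟩ := W.cc_full hF hcF hS hcS (hO S hzS)
        have hlS : lev S = 2 * m := by
          have := (H.covBy_iff.mp hzS).2
          omega
        have hlab : h2 (2 * m) N θ z = hh m := by
          rw [W.h2_eq hzR hl hzF (fun y hy => ?_), hfold.th, hh_eq]
          rcases C.only y hy with h | h
          · rw [h]
          · rw [h, hfold.th, hfull.th, hlS]
            omega
        refine ⟨hlab, ⟨topOf F, Nc, co, F, S, C, W.b_cel (mem_sdiff.mp hzR).1 C hO⟩, ?_⟩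
        rw [cst_ct hlab]
        exact C.cst_eq H.gradedBelow (by omega)
    · exact Or.inl h
  -- no pendants below quadrics
  have hNF : 4 ≤ m → m + 1 < NF m (hh m) + hh m := by
    intro h4
    rcases Nat.le_one_iff_eq_zero_or_eq_one.mp hu with h | h
    · obtain rfl : m = 2 * g := by omega
      have hg2 : 2 ≤ g := by omega
      rw [hh_even, NF_even]
      nlinarith
    · obtain rfl : m = 2 * g + 1 := by omega
      rw [hh_odd, NF_odd]
      nlinarith
  have hnoQ : ∀ z ∈ bdR (r2 (2 * m) N), ¬ ((∃ x, QPn m (θ (topOf x)) z x) ∧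
      Num m N θ z 1 (m + 1) 1 2) := by
    rintro z0 hz0 ⟨⟨x0, hx0⟩, hn0⟩
    have h5 := hNF hx0.2.2.2.1
    refine W.kill (n := m + 1) (by omega) ?_ 1 one_ne_zero 1 le_rfl ?_ ?_ z0 hz0 hn0.cst (by
      rw [hn0.lab]; exact hn0.drop)
    · intro z hz
      rcases hrow z hz with h | ⟨-, h⟩ | h | ⟨-, -, h⟩
      · omega
      · rw [h.cst]
      · rw [h.cst]; omega
      · rw [h]; omega
    · intro z hz hc
      rcases hrow z hz with h | ⟨-, h⟩ | h | ⟨-, -, h⟩
      · omega
      · rw [h.lab]; exact h.drop.le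
      · rw [h.cst] at hc; omega
      · rw [h] at hc; omega
    · intro z hz hc _
      rcases hrow z hz with h | ⟨-, h⟩ | h | ⟨-, -, h⟩
      · omega
      · rw [h.nst]; norm_num
      · rw [h.cst] at hc; omega
      · rw [h] at hc; omega
  -- no pendants below fold ends
  have hnoF : ∀ z ∈ bdR (r2 (2 * m) N), ¬ Num m N θ z (hh m) (NF m (hh m) + hh m) 1 (sgF m) := by
    intro z0 hz0 hn0
    refine W.kill (n := NF m (hh m) + hh m) (by omega) ?_ ((-1) ^ sgF m)
      (pow_ne_zero _ (by norm_num)) 1 le_rfl ?_ ?_ z0 hz0 hn0.cst (by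
      rw [hn0.lab]; exact hn0.drop)
    · intro z hz
      rcases hrow z hz with h | h | h | ⟨-, -, h⟩
      · omega
      · exact absurd h (hnoQ z hz)
      · rw [h.cst]
      · rw [h]; omega
    · intro z hz hc
      rcases hrow z hz with h | h | h | ⟨-, -, h⟩
      · omega
      · exact absurd h (hnoQ z hz)
      · rw [h.lab]; exact h.drop.le
      · rw [h] at hc; omega
    · intro z hz hc _
      rcases hrow z hz with h | h | h | ⟨-, -, h⟩
      · omega
      · exact absurd h (hnoQ z hz)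
      · rw [h.nst]
      · rw [h] at hc; omega
  choose B hB using W.natTop
  by_cases hl : lev z = 2 * m + 1
  · left
    refine (Nat.le_add_right _ _).trans_lt (cc_dead H hB (fun x hx => W.lt_lev hx) hmu hu hg
      (fun h => ?_) W.sum_b W.farT (by omega) (fun z hz => ?_) z (W.mem_bd hz hl))
    · omega
    · rcases hrow z hz with h | h | h | ⟨h1, h2, -⟩
      · left; omega
      · exact absurd h (hnoQ z hz)
      · exact absurd h (hnoF z hz)
      · exact Or.inr ⟨h1, h2⟩
  · exact Or.inr hl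

end Pool.Agent.GaussPoset.Hc
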