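import Pool.Agent.W_448hcc_h53.HcF
import Pool.Agent.W_448cl_h67.ClS
import Pool.Agent.W_448j8_h67.JaB
import Pool.Agent.W_448s14_h94.SgA

/-!
The strips `E7`, `La5`, `La6` at level 12, window 6 (MP_448cb3_co).
-/

namespace Pool.Agent.GaussPoset.Hc

set_option linter.unusedSectionVars false

open Polynomial Finset Cl Wd

universe u

/-- the up-sets -/
def Ha6us : List ℕ := [33554431, 32505855, 31457279, 30408703, 30277631, 30261247, 16777215, 15728639, 14680063, 13631487, 13500415, 13484031, 12582911, 11534335, 10485759, 10223615, 9437183, 9306111, 9289727, 9175039, 9043967, 9027583, 9011199, 8994815, 8990719, 8989695, 8989439, 8388607, 7340031, 6291455, 5242879, 5111807, 5095423, 4194303, 3670015, 3145727, 2621439, 2097151, 1835007, 1572863, 1310719, 1245183, 1048575, 917503, 901119, 786431, 655359, 638975, 622591, 606207, 602111, 601087, 600831, 524287, 393215, 376831, 262143, 196607, 131071, 114687, 98303, 81919, 77823, 76799, 76543, 65535, 49151, 32767, 24575, 16383, 12287,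 11263, 11007, 8191, 4095, 3071, 2815, 2047, 1023, 767, 511, 383, 255, 191, 127, 63, 31, 15, 7, 3, 1, 0]

/-- the covers -/
def Ha6cv : List ℕ := [0, 1, 2, 4, 8, 16, 32, 32, 64, 192, 768, 512, 3072, 2048, 4096, 12288, 8192, 49152, 98304, 65536, 131072, 393216, 786432, 524288, 12582912]

/-- the levels -/
def Ha6lv : List ℕ := [0, 1, 2, 3, 4, 5, 6, 6, 7, 7, 8, 8, 9, 9, 10, 10, 10, 11, 11, 11, 12, 12, 12, 12, 13]

/-- the cells above -/
def Ha6um : List ℕ := [1, 3, 7, 15, 31, 63, 127, 191, 383, 767, 2047, 2815, 8191, 11007, 24575, 49151, 76543, 196607, 376831, 600831, 1245183, 2621439, 5095423, 8989439, 30261247]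

/-- the thresholds -/
def Ha6th : List ℕ := [0, 0, 0, 0, 0, 0, 0, 0, 1, 0, 1, 0, 1, 0, 2, 1, 0, 2, 1, 0, 3, 2, 1, 0, 1]

/-- window 6 -/
def Ha6L6 : List (ℕ × ℕ × ℕ) := [(8989439, 13, 1), (8989695, 13, 2), (8990719, 13, 3), (8994815, 13, 4), (9011199, 13, 5), (9027583, 13, 5), (9043967, 13, 6), (9175039, 13, 7), (9289727, 13, 6), (9306111, 13, 7), (9437183, 13, 8), (10223615, 13, 8), (10485759, 13, 9), (11534335, 13, 9), (12582911, 13, 10), (13484031, 13, 7), (13500415, 13, 8), (13631487, 13, 9), (14680063, 13, 10), (15728639, 13, 10), (16777215, 13, 11), (30261247, 14, 7), (30277631, 14, 8), (30408703, 14, 9), (31457279, 14, 10), (32505855, 14, 10), (33554431, 14, 11)]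

theorem Ha6_us : UsOK 25 (fun a => Ha6cv.getD a 0) Ha6us :=
  usOK_of_chk (by decide +kernel)

theorem Ha6_win6 : winChk 25 (2 ^ 100) 11 (fun a => Ha6lv.getD a 0) Ha6us 6 8989439
    Ha6L6 = true := by
  decide +kernel

theorem Ha6_th6 : thChk 25 6 23 (fun a => Ha6lv.getD a 0) (fun a => Ha6cv.getD a 0)
    (fun a => Ha6um.getD a 0) (fun a => Ha6th.getD a 0) = true := by
  decide +kernel

theorem Ha6_bm6 : Sg.bmC 25 6 23 8989439 (fun a => Ha6lv.getD a 0)
    (fun a => Ha6um.getD a 0) = true := by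
  decide +kernel

section Cod

variable {P : Type u} [Fintype P] [PartialOrder P] [DecidableEq P]
variable {n N : ℕ} {cv lv : ℕ → ℕ} {c : ℕ → P} {Us : List ℕ}

/-- local data of a coded set from the checks -/
theorem cod_loc (C : Cod n cv lv c) (hU : UsOK N cv Us) (hn : n ≤ N) {um th : ℕ → ℕ}
    {i a0 B K bm : ℕ} (hth : thChk N i a0 lv cv um th = true) (ha0 : a0 < n) {S : Finset P}
    (hS : ∀ x, x ∈ S ↔ ∃ a < n, c a = x) {L : List (ℕ × ℕ × ℕ)}
    (hw : winChk N B K lv Us i bm L = true) (hbm : Sg.bmC N i a0 bm lv um = true)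
    (hbn : bm < 2 ^ n) : LocData i 2 S (Sg.thI n c th) (fun x => x = c a0) := by
  unfold thChk at hth
  simp only [Bool.and_eq_true, List.all_eq_true, List.mem_range, Bool.or_eq_true, ble_iff,
    beq_iff, Nat.blt_eq, Bool.not_eq_true'] at hth
  obtain ⟨⟨h1, h2⟩, h3⟩ := hth
  have hle : ∀ {a b : ℕ}, a < n → b < n → (c a ≤ c b ↔ (um a).testBit b = true) := fun ha hb =>
    C.le_iff hn hU.cv h1 ha hb
  have hpos : ∀ x ∈ S, 1 ≤ Sg.thI n c th x → ∃ a < n, c a = x ∧
      i < lv a ∧ (um a0).testBit a = false ∧ th a ≤ lv a - i ∧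
      ∀ y < N, (um y).testBit a = false ∨ ∀ x' < N, ((cv y).testBit x' = false ∨
        (um x').testBit a = true) ∨ th a ≤ th x' + 1 := by
    intro x hx h4
    obtain ⟨a, ha, rfl⟩ := (hS x).mp hx
    rw [Sg.thI_c C th ha] at h4
    rcases h2 a (by omega) with h5 | ⟨⟨⟨h5, h6⟩, h7⟩, h8⟩
    · omega
    · exact ⟨a, ha, rfl, h5, h6, h7, h8⟩
  constructor
  · intro U hUS hup hlow hB
    have hb := hB _ ((hS _).mpr ⟨a0, ha0, rfl⟩) rfl
    refine C.clean_of hU hn hw (fun x hx => (hS x).mp (hUS hx)) hup hbn ?_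
    intro a ha hab
    unfold Sg.bmC at hbm
    simp only [List.all_eq_true, List.mem_range, Bool.or_eq_true, ble_iff,
      Bool.not_eq_true'] at hbm
    rcases hbm a (by omega) with (h4 | h4) | h4
    · rw [hab] at h4
      exact absurd h4 (by simp)
    · refine hlow _ ((hS _).mpr ⟨a, ha, rfl⟩) ?_
      rw [C.lev a ha]
      exact h4
    · exact hup _ hb _ ((hle ha0 ha).mpr h4)
  · intro x hx h4
    obtain ⟨a, ha, rfl, h5, -⟩ := hpos x hx h4
    rw [C.lev a ha]
    exact h5
  · rintro x hx h4 y hy hyx rfl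
    obtain ⟨a, ha, rfl, -, h6, -⟩ := hpos x hx h4
    rw [hle ha0 ha, h6] at hyx
    exact absurd hyx (by simp)
  · intro x hx h4 y hy hyx x' hx' hyx' hn'
    obtain ⟨a, ha, rfl, -, -, -, h8⟩ := hpos x hx h4
    obtain ⟨y, hy', rfl⟩ := (hS y).mp hy
    obtain ⟨x', hxn', hcx, rfl⟩ := (C.cov y hy' x').mp hyx'
    rw [Sg.thI_c C th ha, Sg.thI_c C th hxn']
    rcases h8 y (by omega) with h9 | h9
    · rw [hle hy' ha, h9] at hyx
      exact absurd hyx (by simp)
    · rcases h9 x' (by omega) with (h10 | h10) | h10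
      · rw [hcx] at h10
        exact absurd h10 (by simp)
      · exact absurd ((hle hxn' ha).mpr h10) hn'
      · exact h10
  · intro x hx
    rcases Nat.eq_zero_or_pos (Sg.thI n c th x) with h4 | h4
    · rw [h4]; exact Nat.zero_le _
    · obtain ⟨a, ha, rfl, -, -, h7, -⟩ := hpos x hx h4
      rw [Sg.thI_c C th ha, C.lev a ha]
      exact h7

end Cod

section

variable {P : Type u} [Fintype P] [PartialOrder P] [DecidableEq P] {r : ℕ}
variable {t : Tops P} {lo hi : ℕ → ℕ} {e : ℕ → ℕ → P}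

/-- the natural set of `La6` with the element below the first two cells -/
theorem natTop_Ha6 (D : WordD 12 6 wa6 lo hi) (C : Cp.Comp 12 (t : P) lo hi e) (H : Gr P r)
    (hg : ∀ l, l < 12 → Win.Good P l) {z0 : P} (h0 : z0 ⋖ e 12 6) (h1 : z0 ⋖ e 12 5) :
    ∃ θ : P → ℕ, NatTop 6 t 2 (insert z0 (lowPart 12 (t : P))) θ (fun x => x = e 12 6) ∧
      θ (e 12 3) = 3 ∧ θ (e 12 4) = 2 ∧ θ (e 12 5) = 1 ∧ θ (e 12 6) = 0 ∧ θ z0 = 1 := by
  obtain ⟨r1, r2⟩ := D.rows C
  have hC := La6_strip.cod C H hg t.2 (by norm_num) r1 r2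
  have e1 : losW 6 wa6 12 = 3 ∧ hisW 6 wa6 12 = 6 := by decide +kernel
  have l12 : lo 12 = 3 := by rw [r1 12 le_rfl, e1.1]
  have u12 : hi 12 = 6 := by rw [r2 12 le_rfl, e1.2]
  have hne : e 12 6 ≠ e 12 5 := fun h => by
    have := C.inj 12 6 5 le_rfl (by omega) (by omega) (by omega) (by omega) h
    omega
  have hl0 : lev z0 = 13 := by
    have h2 := (H.covBy_iff.mp h0).2
    have h3 := C.lev_e 12 6 le_rfl (by omega) (by omega)
    omega
  have hcv0 : ∀ a < 24, La6cv.getD a 0 < 2 ^ 24 := by decide +kernel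
  have hlow : ∀ a < 24, e (La6lv.getD a 0) (La6sl.getD a 0) ∈ lowPart 12 (t : P) := by
    intro a ha
    have hr := La6_strip.row a (by omega)
    have hla : ∀ a < 24, La6lv.getD a 0 ≤ 12 := by decide +kernel
    have h2 := hla a ha
    have hr' : lo (La6lv.getD a 0) ≤ La6sl.getD a 0 ∧ La6sl.getD a 0 ≤ hi (La6lv.getD a 0) := by
      rw [r1 _ h2, r2 _ h2]
      exact hr
    rw [mem_lowPart, C.lev_e _ _ h2 hr'.1 hr'.2]
    exact ⟨C.le_t _ _ h2 hr'.1 hr'.2, h2⟩
  have hX := J8.Cod.extend hC (y := z0) (m := 12582912) (l := 13) hcv0 (by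
      intro a ha h
      have h2 := (mem_lowPart.mp (hlow a ha)).2
      have h3 : e (La6lv.getD a 0) (La6sl.getD a 0) = z0 := h
      rw [h3] at h2
      omega) (by decide +kernel) (by
      intro w
      constructor
      · intro hw
        rcases uc_pair H h0 h1 hne hw with h | h
        · exact ⟨23, by decide +kernel, by decide +kernel, h.symm⟩
        · exact ⟨22, by decide +kernel, by decide +kernel, h.symm⟩
      · rintro ⟨b, hb, h2, h3⟩
        have h4 : ∀ b < 24, (12582912 : ℕ).testBit b = true → b = 22 ∨ b = 23 := by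
          decide +kernel
        rcases h4 b hb h2 with h5 | h5
        · subst h5
          rw [← h3]; exact h1
        · subst h5
          rw [← h3]; exact h0) hl0
  set c : ℕ → P := fun a => if a = 24 then z0 else e (La6lv.getD a 0) (La6sl.getD a 0) with hc
  have hY : Cod 25 (fun a => Ha6cv.getD a 0) (fun a => Ha6lv.getD a 0) c := by
    refine J8.Cod.congr hX (fun a ha => ?_) (fun a ha => ?_) (fun a ha => rfl)
    · have h2 : ∀ a < 25, Ha6cv.getD a 0 = if a = 24 then 12582912 else La6cv.getD a 0 := by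
        decide +kernel
      exact h2 a ha
    · have h2 : ∀ a < 25, Ha6lv.getD a 0 = if a = 24 then 13 else La6lv.getD a 0 := by
        decide +kernel
      exact h2 a ha
  have hS : ∀ x, x ∈ insert z0 (lowPart 12 (t : P)) ↔ ∃ a < 25, c a = x := by
    intro x
    rw [mem_insert]
    constructor
    · rintro (h | h)
      · exact ⟨24, by norm_num, by rw [hc]; simp only [if_true]; exact h.symm⟩
      · obtain ⟨a, ha, h2⟩ := La6_strip.surj' C (by norm_num) r1 r2 h
        have ha' : a < 24 := ha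
        refine ⟨a, by omega, ?_⟩
        rw [hc]
        simp only
        rw [if_neg (by omega)]
        exact h2
    · rintro ⟨a, ha, h2⟩
      by_cases h3 : a = 24
      · left
        rw [hc] at h2
        simp only at h2
        rw [if_pos h3] at h2
        exact h2.symm
      · right
        rw [hc] at h2
        simp only at h2
        rw [if_neg h3] at h2
        rw [← h2]
        exact hlow a (by omega)
  have hcv : ∀ a, a < 24 → c a = e (La6lv.getD a 0) (La6sl.getD a 0) := by
    intro a ha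
    rw [hc]
    simp only
    rw [if_neg (by omega)]
  have hL := cod_loc hY Ha6_us le_rfl Ha6_th6 (by norm_num) hS Ha6_win6 Ha6_bm6 (by norm_num)
  have hth : ∀ a, a < 25 → Sg.thI 25 c (fun a => Ha6th.getD a 0) (c a) = Ha6th.getD a 0 :=
    fun a ha => Sg.thI_c hY _ ha
  have hc23 : c 23 = e 12 6 := hcv 23 (by norm_num)
  have hup : ∀ x ∈ insert z0 (lowPart 12 (t : P)), ∀ y, x ≤ y →
      y ∈ insert z0 (lowPart 12 (t : P)) := by
    have hlu : ∀ x ∈ lowPart 12 (t : P), ∀ y, x ≤ y → y ∈ lowPart 12 (t : P) := by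
      intro x hx y hxy
      rw [mem_lowPart] at hx ⊢
      refine ⟨Cp.up_le H hg t.2 hx.1 hx.2 hxy, ?_⟩
      rcases eq_or_lt_of_le hxy with h | h
      · rw [← h]; exact hx.2
      · have := lev_strictAnti h
        omega
    intro x hx y hxy
    rcases mem_insert.mp hx with h | h
    · subst h
      rcases eq_or_lt_of_le hxy with h2 | h2
      · rw [← h2]; exact mem_insert_self _ _
      · obtain ⟨v, hv, hvy⟩ := Hul.exists_cov h2
        refine mem_insert_of_mem ?_
        rcases uc_pair H h0 h1 hne hv with h3 | h3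
        · rw [h3] at hvy
          exact hlu _ (by
            rw [mem_lowPart, C.lev_e 12 6 le_rfl (by omega) (by omega)]
            exact ⟨C.le_t 12 6 le_rfl (by omega) (by omega), le_rfl⟩) y hvy
        · rw [h3] at hvy
          exact hlu _ (by
            rw [mem_lowPart, C.lev_e 12 5 le_rfl (by omega) (by omega)]
            exact ⟨C.le_t 12 5 le_rfl (by omega) (by omega), le_rfl⟩) y hvy
    · exact mem_insert_of_mem (hlu x h y hxy)
  refine ⟨Sg.thI 25 c (fun a => Ha6th.getD a 0), ?_, ?_, ?_, ?_, ?_, ?_⟩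
  · rw [hc23] at hL
    refine hL.natTop hup ?_ ?_
    · intro x hx
      rcases mem_insert.mp hx with h | h
      · rw [h]
        exact h0.le.trans (C.le_t 12 6 le_rfl (by omega) (by omega))
      · exact (mem_lowPart.mp h).1
    · intro x hx hl
      exact mem_insert_of_mem (mem_lowPart.mpr ⟨hx, by omega⟩)
  · have h2 := hth 20 (by norm_num)
    rw [hcv 20 (by norm_num)] at h2
    exact h2
  · have h2 := hth 21 (by norm_num)
    rw [hcv 21 (by norm_num)] at h2
    exact h2
  · have h2 := hth 22 (by norm_num)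
    rw [hcv 22 (by norm_num)] at h2
    exact h2
  · have h2 := hth 23 (by norm_num)
    rw [hcv 23 (by norm_num)] at h2
    exact h2
  · have h2 := hth 24 (by norm_num)
    have h3 : c 24 = z0 := by rw [hc]; simp
    rw [h3] at h2
    exact h2

end

end Pool.Agent.GaussPoset.Hc
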